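import Pool.Agent.Lib.MP_182bbb_co.AR.Iface

/-! # MP_182bbb_co, board ar : BOOKUP -/

open Finset MP_182bbb_co.H5

namespace MP_182bbb_co.AR

universe u v

namespace BookupAux

lemma card_of_mem_shadow {V : Type v} [DecidableEq V] {r : ℕ} {G : Finset (Finset V)}
    (hG : IsUniform r G) {f : Finset V} (hf : f ∈ H5.shadow G) : f.card + 1 = r := by
  simp only [H5.shadow, mem_biUnion, mem_image] at hf
  obtain ⟨e, he, y, hy, rfl⟩ := hf
  rw [card_erase_of_mem hy, hG e he]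
  have : 0 < e.card := card_pos.2 ⟨y, hy⟩
  rw [hG e he] at this
  omega

lemma inner_sum {V : Type v} [DecidableEq V] (e : Finset V) (w : Finset V → ℝ) :
    ∑ c ∈ e, ∑ x ∈ e.erase c, w (insert c ((e.erase c).erase x)) =
      ((e.card : ℝ) - 1) * ∑ x ∈ e, w (e.erase x) := by
  have h1 : ∀ c ∈ e, ∑ x ∈ e.erase c, w (insert c ((e.erase c).erase x)) =
      ∑ x ∈ e, w (e.erase x) - w (e.erase c) := by
    intro c hc
    rw [← Finset.sum_erase_eq_sub (f := fun x => w (e.erase x)) hc]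
    refine sum_congr rfl ?_
    intro x hx
    rw [mem_erase] at hx
    congr 1
    rw [erase_right_comm]
    exact insert_erase (mem_erase.2 ⟨fun h => hx.1 h.symm, hc⟩)
  rw [sum_congr rfl h1, sum_sub_distrib, sum_const, nsmul_eq_mul]
  ring

end BookupAux

open BookupAux

/-- The exact upper bound for books, from the local inequality and double counting. -/
theorem bookup : BOOKLOC_S.{u, v} → DEG_S.{v} → BOOKUP_S.{u, v} := by
  intro hloc hdeg α V _ _ _ r H G hr hB hG hno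
  -- three double counts
  have d1 : ∑ f ∈ H5.shadow G, (dg G f : ℝ) = (r : ℝ) * G.card := by
    have := hdeg V r G G (fun _ _ => (1 : ℝ)) hG (Subset.refl _)
    simp only [sum_const, nsmul_eq_mul, mul_one] at this
    unfold dg
    rw [this, sum_congr rfl (fun e he => by rw [hG e he]), sum_const, nsmul_eq_mul]
    ring
  have d2 : ∑ f ∈ H5.shadow G, ∑ c ∈ lk G f, ∑ x ∈ f,
      (1 : ℝ) / (dg G (insert c (f.erase x)) : ℝ) =
      ((r : ℝ) - 1) * ∑ e ∈ G, ∑ x ∈ e, (1 : ℝ) / (dg G (e.erase x) : ℝ) := by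
    have := hdeg V r G G (fun f c => ∑ x ∈ f, (1 : ℝ) / (dg G (insert c (f.erase x)) : ℝ)) hG
      (Subset.refl _)
    rw [this, mul_sum]
    refine sum_congr rfl ?_
    intro e he
    rw [inner_sum e (fun s => (1 : ℝ) / (dg G s : ℝ)), hG e he]
  have d3 : ∑ e ∈ G, ∑ x ∈ e, (1 : ℝ) / (dg G (e.erase x) : ℝ) ≤ ((H5.shadow G).card : ℝ) := by
    have := hdeg V r G G (fun f _ => (1 : ℝ) / (dg G f : ℝ)) hG (Subset.refl _)
    rw [← this]
    have h4 : ∀ f ∈ H5.shadow G, ∑ c ∈ lk G f, (1 : ℝ) / (dg G f : ℝ) ≤ 1 := by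
      intro f _
      rw [sum_const, nsmul_eq_mul, mul_one_div]
      exact div_self_le_one _
    calc ∑ f ∈ H5.shadow G, ∑ c ∈ lk G f, (1 : ℝ) / (dg G f : ℝ)
        ≤ ∑ f ∈ H5.shadow G, (1 : ℝ) := sum_le_sum h4
      _ = ((H5.shadow G).card : ℝ) := by simp
  -- sum the local inequality
  have key : ∑ f ∈ H5.shadow G, ((dg G f : ℝ) - H.card) ≤
      ∑ f ∈ H5.shadow G, (H.card : ℝ) * ∑ c ∈ lk G f, ∑ x ∈ f,
        (1 : ℝ) / (dg G (insert c (f.erase x)) : ℝ) := by
    refine sum_le_sum ?_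
    intro f hf
    exact hloc α V r H G hr hB hG hno f (card_of_mem_shadow hG hf)
  rw [sum_sub_distrib, ← mul_sum, d1, d2, sum_const, nsmul_eq_mul] at key
  have hr1 : (1 : ℝ) ≤ r := by exact_mod_cast hr
  have hN : (0 : ℝ) ≤ H.card := by positivity
  have h5 : (H.card : ℝ) * (((r : ℝ) - 1) *
      ∑ e ∈ G, ∑ x ∈ e, (1 : ℝ) / (dg G (e.erase x) : ℝ)) ≤
      (H.card : ℝ) * (((r : ℝ) - 1) * (H5.shadow G).card) := by
    refine mul_le_mul_of_nonneg_left ?_ hN
    exact mul_le_mul_of_nonneg_left d3 (by linarith)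
  have h6 : (r : ℝ) * G.card ≤ (r : ℝ) * ((H.card : ℝ) * (H5.shadow G).card) := by
    nlinarith
  have h7 : (G.card : ℝ) ≤ (H.card : ℝ) * (H5.shadow G).card :=
    le_of_mul_le_mul_left h6 (by linarith)
  exact_mod_cast h7

end MP_182bbb_co.AR
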